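import Pool.Agent.Q165.GL.Stm

/-!
# Project GL: elementary lemmas on counting
-/

set_option autoImplicit false

namespace Pool.Agent.Q165.GL

open Finset

variable {α β : Type} [Fintype α] [Fintype β]

theorem cnt_congr {p q : α → Prop} (h : ∀ x, p x ↔ q x) : cnt p = cnt q := by
  have : p = q := funext fun x => propext (h x)
  rw [this]

theorem cnt_mono {p q : α → Prop} (h : ∀ x, p x → q x) : cnt p ≤ cnt q := by
  classical
  unfold cnt
  apply card_le_card
  intro x hx
  rw [mem_filter] at hx ⊢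
  exact ⟨hx.1, h x hx.2⟩

theorem cnt_or_le (p q : α → Prop) : cnt (fun x => p x ∨ q x) ≤ cnt p + cnt q := by
  classical
  unfold cnt
  refine le_trans (card_le_card ?_) (card_union_le _ _)
  intro x hx
  simp only [mem_union, mem_filter, mem_univ, true_and] at hx ⊢
  exact hx

theorem cnt_add {p q : α → Prop} (h : ∀ x, p x → ¬ q x) :
    cnt p + cnt q = cnt (fun x => p x ∨ q x) := by
  classical
  unfold cnt
  rw [← card_union_of_disjoint]
  · congr 1
    ext x
    simp only [mem_union, mem_filter, mem_univ, true_and]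
  · rw [disjoint_filter]
    intro x _ hx
    exact h x hx

theorem cnt_split (p q : α → Prop) :
    cnt p = cnt (fun x => p x ∧ q x) + cnt (fun x => p x ∧ ¬ q x) := by
  classical
  rw [cnt_add (fun x h1 h2 => h2.2 h1.2)]
  apply cnt_congr
  intro x
  tauto

theorem cnt_equiv (e : α ≃ β) (p : β → Prop) : cnt (fun x => p (e x)) = cnt p := by
  classical
  unfold cnt
  apply card_bij (fun x _ => e x)
  · intro x hx
    rw [mem_filter] at hx ⊢
    exact ⟨mem_univ _, hx.2⟩
  · intro x _ y _ hxy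
    exact e.injective hxy
  · intro y hy
    rw [mem_filter] at hy
    exact ⟨e.symm y, by rw [mem_filter]; simpa using hy.2, by simp⟩

theorem cnt_prod (p : α × β → Prop) : cnt p = ∑ a, cnt (fun b => p (a, b)) := by
  classical
  unfold cnt
  rw [card_eq_sum_card_fiberwise (f := Prod.fst) (t := univ) (fun _ _ => mem_univ _)]
  apply sum_congr rfl
  intro a _
  apply card_bij (fun x _ => x.2)
  · intro x hx
    simp only [mem_filter, mem_univ, true_and] at hx ⊢
    rw [← hx.2]
    exact hx.1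
  · intro x hx y hy hxy
    simp only [mem_filter, mem_univ, true_and] at hx hy
    exact Prod.ext (hx.2.trans hy.2.symm) hxy
  · intro b hb
    simp only [mem_filter, mem_univ, true_and] at hb
    exact ⟨(a, b), by simpa using hb, rfl⟩

theorem cnt_swap (p : α × α → Prop) : cnt (fun q : α × α => p (q.2, q.1)) = cnt p :=
  cnt_equiv (Equiv.prodComm α α) p

theorem cnt_eq_sum (p : α → Prop) [DecidablePred p] : cnt p = ∑ a, if p a then 1 else 0 := by
  classical
  unfold cnt
  rw [card_filter]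
  apply sum_congr rfl
  intro a _
  congr

theorem cnt_const_and (P : Prop) [Decidable P] (p : α → Prop) :
    cnt (fun x => P ∧ p x) = if P then cnt p else 0 := by
  by_cases h : P
  · simp [h]
  · simp only [h, false_and, if_false]
    classical
    unfold cnt
    simp

theorem cnt_false : cnt (fun _ : α => False) = 0 := by
  classical
  unfold cnt
  simp

theorem cnt_eq_zero {p : α → Prop} (h : ∀ x, ¬ p x) : cnt p = 0 := by
  rw [cnt_congr (q := fun _ => False) (fun x => by simp [h x]), cnt_false]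

variable {ι : Type} [Fintype ι]

theorem sum_deg (G : SimpleGraph ι) : ∑ y, deg G y = adj2 G := by
  unfold deg adj2
  rw [cnt_prod]

theorem deg_comm (G : SimpleGraph ι) (y : ι) : cnt (fun z => G.Adj z y) = deg G y := by
  unfold deg
  exact cnt_congr fun z => G.adj_comm _ _

theorem sum_dd (G : SimpleGraph ι) : ∑ y, dd G y = ∑ z, deg G z ^ 2 := by
  classical
  have h1 : ∀ y, dd G y = ∑ z, if G.Adj y z then deg G z else 0 := by
    intro y
    unfold dd
    rw [cnt_prod]
    apply sum_congr rfl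
    intro z _
    exact cnt_const_and (G.Adj y z) (fun w => G.Adj z w)
  simp_rw [h1]
  rw [sum_comm]
  apply sum_congr rfl
  intro z _
  rw [← sum_filter, sum_const, smul_eq_mul, sq]
  congr 1
  rw [← deg_comm G z]
  unfold cnt
  congr

theorem dd_le (G : SimpleGraph ι) (d : ℕ) (hd : ∀ z, deg G z ≤ d) (y : ι) : dd G y ≤ d ^ 2 := by
  classical
  have h1 : dd G y = ∑ z, if G.Adj y z then deg G z else 0 := by
    unfold dd
    rw [cnt_prod]
    apply sum_congr rfl
    intro z _
    exact cnt_const_and (G.Adj y z) (fun w => G.Adj z w)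
  rw [h1, ← sum_filter]
  calc ∑ z ∈ univ.filter (fun z => G.Adj y z), deg G z
      ≤ ∑ _z ∈ univ.filter (fun z => G.Adj y z), d := sum_le_sum fun z _ => hd z
    _ = (univ.filter (fun z => G.Adj y z)).card * d := by rw [sum_const, smul_eq_mul]
    _ ≤ d * d := by
        apply Nat.mul_le_mul_right
        refine le_trans (le_of_eq ?_) (hd y)
        unfold deg cnt
        congr
    _ = d ^ 2 := by ring

/-- all pairs are far pairs or come from walks of length two -/
theorem adj2_le_far (G : SimpleGraph ι) (y : ι) :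
    adj2 G ≤ cnt (fun q : ι × ι => G.Adj q.1 q.2 ∧ q.1 ≠ y ∧ q.2 ≠ y ∧ ¬ near G y q.1 q.2) +
      2 * dd G y := by
  classical
  have h1 : dd G y = cnt (fun q : ι × ι => G.Adj y q.2 ∧ G.Adj q.2 q.1) := by
    unfold dd
    rw [← cnt_swap]
  have h2 : adj2 G ≤ cnt (fun q : ι × ι =>
      (G.Adj q.1 q.2 ∧ q.1 ≠ y ∧ q.2 ≠ y ∧ ¬ near G y q.1 q.2) ∨
      ((G.Adj y q.1 ∧ G.Adj q.1 q.2) ∨ (G.Adj y q.2 ∧ G.Adj q.2 q.1))) := by
    unfold adj2
    apply cnt_mono
    rintro ⟨p, q⟩ h
    simp only at h ⊢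
    by_cases hp : p = y
    · subst hp
      exact Or.inr (Or.inr ⟨h, h.symm⟩)
    by_cases hq : q = y
    · subst hq
      exact Or.inr (Or.inl ⟨h.symm, h⟩)
    by_cases hn : near G y p q
    · rcases hn with hn | hn
      · exact Or.inr (Or.inl ⟨hn, h⟩)
      · exact Or.inr (Or.inr ⟨hn, h.symm⟩)
    · exact Or.inl ⟨h, hp, hq, hn⟩
  refine h2.trans ((cnt_or_le _ _).trans ?_)
  have h3 := cnt_or_le (fun q : ι × ι => G.Adj y q.1 ∧ G.Adj q.1 q.2)
    (fun q : ι × ι => G.Adj y q.2 ∧ G.Adj q.2 q.1)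
  have h4 : cnt (fun q : ι × ι => G.Adj y q.1 ∧ G.Adj q.1 q.2) = dd G y := rfl
  rw [h4, ← h1] at h3
  omega

theorem avoid (G : SimpleGraph ι) (y : ι) :
    cnt (fun q : ι × ι => G.Adj q.1 q.2 ∧ q.1 ≠ y ∧ q.2 ≠ y) + 2 * deg G y = adj2 G := by
  classical
  have h1 : cnt (fun q : ι × ι => G.Adj q.1 q.2 ∧ q.1 = y) = deg G y := by
    rw [cnt_prod]
    rw [sum_eq_single y]
    · exact cnt_congr fun z => by simp
    · intro b _ hb
      exact cnt_eq_zero fun z => by simp [hb]
    · simp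
  have h2 : cnt (fun q : ι × ι => G.Adj q.1 q.2 ∧ q.2 = y) = deg G y := by
    rw [← h1, ← cnt_swap]
    apply cnt_congr
    rintro ⟨p, q⟩
    simp [G.adj_comm]
  have h3 : cnt (fun q : ι × ι => G.Adj q.1 q.2 ∧ q.1 ≠ y ∧ q.2 = y) = deg G y := by
    rw [← h2]
    apply cnt_congr
    rintro ⟨p, q⟩
    simp only
    constructor
    · rintro ⟨a, _, c⟩
      exact ⟨a, c⟩
    · rintro ⟨a, c⟩
      exact ⟨a, fun h => G.irrefl (c ▸ h ▸ a), c⟩
  have h4 := cnt_split (fun q : ι × ι => G.Adj q.1 q.2) (fun q => q.1 = y)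
  have h5 := cnt_split (fun q : ι × ι => G.Adj q.1 q.2 ∧ ¬ q.1 = y) (fun q => q.2 = y)
  have h6 : cnt (fun q : ι × ι => (G.Adj q.1 q.2 ∧ ¬ q.1 = y) ∧ q.2 = y) = deg G y := by
    rw [← h3]
    exact cnt_congr fun q => by tauto
  have h7 : cnt (fun q : ι × ι => (G.Adj q.1 q.2 ∧ ¬ q.1 = y) ∧ ¬ q.2 = y) =
      cnt (fun q : ι × ι => G.Adj q.1 q.2 ∧ q.1 ≠ y ∧ q.2 ≠ y) := by
    exact cnt_congr fun q => by tauto
  rw [h6, h7] at h5
  rw [h1] at h4
  unfold adj2
  omega

theorem sep_eq (V : Views ι) (G : SimpleGraph ι) (y x : ι) :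
    sep V G y x = far V G y x + nea V G y x := by
  unfold sep far nea
  rw [cnt_split _ (fun q : ι × ι => near G y q.1 q.2), add_comm]
  congr 1
  · exact cnt_congr fun q => by tauto
  · exact cnt_congr fun q => by tauto

omit [Fintype ι] in
theorem chi_swap (V : Views ι) {y x z : ι} (h1 : y ≠ x) (h2 : y ≠ z) (h3 : x ≠ z) :
    0 < V.chi y x z ↔ V.chi x y z < 0 := V.swap y x z h1 h2 h3

omit [Fintype ι] in
theorem chi_ne (V : Views ι) {y x z : ι} (h1 : y ≠ x) (h2 : y ≠ z) (h3 : x ≠ z) :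
    V.chi y x z ≠ 0 := by
  unfold Views.chi
  have := V.ha y x h1
  have := V.ha y z h2
  have := sub_ne_zero.2 (V.hr y x z h1 h2 h3).symm
  positivity

omit [Fintype ι] in
theorem chi_swap' (V : Views ι) {y x z : ι} (h1 : y ≠ x) (h2 : y ≠ z) (h3 : x ≠ z) :
    V.chi y x z < 0 ↔ 0 < V.chi x y z :=
  (V.swap x y z h1.symm h3 h2).symm

theorem nex_eq (V : Views ι) (G : SimpleGraph ι) {y x : ι} (h : y ≠ x) :
    nex V G y x = nea V G x y := by
  unfold nex nea
  rw [← cnt_swap]
  apply cnt_congr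
  rintro ⟨p, q⟩
  simp only [sepP, near]
  constructor
  · rintro ⟨h1, h2, h3, h4, h5, h6, h7, h8⟩
    refine ⟨h1.symm, h2.symm, h6, h5, h4, h3, ?_, ?_⟩
    · exact (chi_swap' V h h5.symm h6.symm).1 h8
    · exact (chi_swap V h h3.symm h4.symm).1 h7
  · rintro ⟨h1, h2, h3, h4, h5, h6, h7, h8⟩
    refine ⟨h1.symm, h2.symm, h6, h5, h4, h3, ?_, ?_⟩
    · exact (chi_swap V h h6.symm h5.symm).2 h8
    · exact (chi_swap' V h h4.symm h3.symm).2 h7

end Pool.Agent.Q165.GL
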