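import Mathlib

/-!
# Project GL: edges of a geometric graph met by one line (definitions)
-/

set_option autoImplicit false

namespace Pool.Agent.Q165.GL

open Finset

/-- The points `P i` are pairwise distinct and no three of them are collinear. -/
def GenPos {n : ℕ} (P : Fin n → ℝ × ℝ) : Prop :=
  Function.Injective P ∧
    ∀ i j k : Fin n, i ≠ j → i ≠ k → j ≠ k → ¬ Collinear ℝ {P i, P j, P k}

/-- The line with the equation `a x + b y = d`. -/
def lineOf (a b d : ℝ) : Set (ℝ × ℝ) := {p | a * p.1 + b * p.2 = d}

/-- The number of edges of the geometric graph with the points `P i` and the edges of `G` whose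
relative interior meets the set `L`. -/
noncomputable def met {n : ℕ} (P : Fin n → ℝ × ℝ) (G : SimpleGraph (Fin n)) (L : Set (ℝ × ℝ)) :
    ℕ :=
  {e : Sym2 (Fin n) | e ∈ G.edgeSet ∧
    ∃ i j : Fin n, e = s(i, j) ∧ (openSegment ℝ (P i) (P j) ∩ L).Nonempty}.ncard

/-- `f(n, k)`: the least `e` such that every geometric graph on `n` points with at least `e` edges
has a line meeting the relative interiors of at least `k` edges. -/
noncomputable def f (n k : ℕ) : ℕ :=
  sInf {e : ℕ | ∀ (P : Fin n → ℝ × ℝ) (G : SimpleGraph (Fin n)), GenPos P →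
    e ≤ G.edgeSet.ncard → ∃ a b d : ℝ, (a ≠ 0 ∨ b ≠ 0) ∧ k ≤ met P G (lineOf a b d)}

/-! ## The combinatorial part -/

open Classical in
/-- The number of elements of a finite type with the property `p`. -/
noncomputable def cnt {α : Type} [Fintype α] (p : α → Prop) : ℕ := (univ.filter p).card

/-- For every point `y` the other points `x` as seen from `y`: in suitable coordinates with centre
`y` the point `x` has first coordinate `a y x ≠ 0` and slope `r y x`; so the orientation of the
triple `y, x, z` is the sign of `a y x * a y z * (r y z - r y x)`. -/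
structure Views (ι : Type) where
  a : ι → ι → ℝ
  r : ι → ι → ℝ
  ha : ∀ y x, y ≠ x → a y x ≠ 0
  hr : ∀ y x z, y ≠ x → y ≠ z → x ≠ z → r y x ≠ r y z
  swap : ∀ y x z, y ≠ x → y ≠ z → x ≠ z →
    (0 < a y x * a y z * (r y z - r y x) ↔ a x y * a x z * (r x z - r x y) < 0)

variable {ι : Type}

/-- The orientation of the triple `y, x, z` (only the sign matters, it is not `0` if `y, x, z` are
different). -/
def Views.chi (V : Views ι) (y x z : ι) : ℝ := V.a y x * V.a y z * (V.r y z - V.r y x)

/-- The side of `z` (true: positive) for the line through `y` and `x`, moved a little in such a way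
that `y` gets on the positive side iff `σ`, and `x` iff `τ`. -/
def side (V : Views ι) (y x : ι) (σ τ : Prop) (z : ι) : Prop :=
  (z = y ∧ σ) ∨ (z = x ∧ τ) ∨ (z ≠ y ∧ z ≠ x ∧ 0 < V.chi y x z)

variable [Fintype ι]

/-- The number of edges with one end in `s` and one end not in `s`. -/
noncomputable def cut (G : SimpleGraph ι) (s : ι → Prop) : ℕ :=
  cnt fun q : ι × ι => G.Adj q.1 q.2 ∧ s q.1 ∧ ¬ s q.2

/-- No line close to a line through two points meets more than `c` edges. -/
def Bdd (V : Views ι) (G : SimpleGraph ι) (c : ℕ) : Prop :=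
  ∀ y x : ι, y ≠ x → ∀ σ τ : Prop, cut G (side V y x σ τ) ≤ c

/-- The degree of `y`. -/
noncomputable def deg (G : SimpleGraph ι) (y : ι) : ℕ := cnt fun z => G.Adj y z

/-- The number of ordered pairs of adjacent vertices (twice the number of edges). -/
noncomputable def adj2 (G : SimpleGraph ι) : ℕ := cnt fun q : ι × ι => G.Adj q.1 q.2

/-- The number of walks of length two from `y`. -/
noncomputable def dd (G : SimpleGraph ι) (y : ι) : ℕ :=
  cnt fun q : ι × ι => G.Adj y q.1 ∧ G.Adj q.1 q.2

/-- `y` is adjacent to `p` or to `q`. -/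
def near (G : SimpleGraph ι) (y p q : ι) : Prop := G.Adj y p ∨ G.Adj y q

/-- `p` and `q` are on different sides of the line through `y` and `x` (`p` on the positive side),
and different from `y` and `x`. -/
def sepP (V : Views ι) (y x p q : ι) : Prop :=
  p ≠ y ∧ p ≠ x ∧ q ≠ y ∧ q ≠ x ∧ 0 < V.chi y x p ∧ V.chi y x q < 0

/-- number of edges met by the line through `y` and `x` -/
noncomputable def sep (V : Views ι) (G : SimpleGraph ι) (y x : ι) : ℕ :=
  cnt fun q : ι × ι => G.Adj q.1 q.2 ∧ sepP V y x q.1 q.2

/-- those of them with no end adjacent to `y` -/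
noncomputable def far (V : Views ι) (G : SimpleGraph ι) (y x : ι) : ℕ :=
  cnt fun q : ι × ι => G.Adj q.1 q.2 ∧ ¬ near G y q.1 q.2 ∧ sepP V y x q.1 q.2

/-- those of them with an end adjacent to `y` -/
noncomputable def nea (V : Views ι) (G : SimpleGraph ι) (y x : ι) : ℕ :=
  cnt fun q : ι × ι => G.Adj q.1 q.2 ∧ near G y q.1 q.2 ∧ sepP V y x q.1 q.2

/-- those of them with an end adjacent to `x` -/
noncomputable def nex (V : Views ι) (G : SimpleGraph ι) (y x : ι) : ℕ :=
  cnt fun q : ι × ι => G.Adj q.1 q.2 ∧ near G x q.1 q.2 ∧ sepP V y x q.1 q.2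

/-- the side of `z` for the line through `y` and `x`, directed to the right in the coordinates of
the view from `y` (its sign and the sign of `chi y x z` differ by the sign of `a y x`) -/
def ns (V : Views ι) (y x z : ι) : Prop := 0 < V.a y z * (V.r y z - V.r y x)

/-- the number of edges close to `y` which are met by the line through `y` and `x`, if `y` is moved
to the side `¬ σ` -/
noncomputable def nearN (V : Views ι) (G : SimpleGraph ι) (y x : ι) (σ : Prop) : ℕ :=
  cnt (fun q : ι => G.Adj y q ∧ q ≠ x ∧ (ns V y x q ↔ σ)) + nea V G y x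

end Pool.Agent.Q165.GL
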