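import Pool.Agent.Q165.GL.Ind

/-!
# Project GL: assembly
-/

set_option autoImplicit false

namespace Pool.Agent.Q165.GL

open Finset

theorem adj2_eq {ι : Type} [Fintype ι] [DecidableEq ι] (G : SimpleGraph ι) :
    adj2 G = 2 * G.edgeSet.ncard := by
  classical
  have h1 : G.edgeSet.ncard = G.edgeFinset.card := by
    rw [Set.ncard_eq_toFinset_card']
    rfl
  rw [h1, ← SimpleGraph.sum_degrees_eq_twice_card_edges, ← sum_deg]
  apply sum_congr rfl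
  intro y _
  unfold deg cnt
  rw [← SimpleGraph.card_neighborFinset_eq_degree]
  congr 1
  ext z
  simp

/-- the upper bound for even `c`, if the number of the points is at least `4 c + 1` -/
theorem upper' {ι : Type} [Fintype ι] [DecidableEq ι] (hPAIR : S_PAIR) (hFAR : S_FAR)
    (hNEAR : S_NEAR) (V : Views ι) (G : SimpleGraph ι) (c : ℕ) (hB : Bdd V G c) (K : ℕ)
    (hn : 4 * c + 2 ≤ Fintype.card ι) :
    (adj2 G : ℝ) ≤ (Fintype.card ι + 8 * c) * ((c : ℝ) / (K + 1) + K) := by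
  have h1 := main_ineq hPAIR hFAR hNEAR V G c hB K
  have h2 := sum_sq_le hPAIR V G c hB
  obtain ⟨m, hm⟩ : ∃ m, Fintype.card ι = m + 2 := ⟨Fintype.card ι - 2, by omega⟩
  rw [hm] at h1 hn ⊢
  have e1 : m + 2 - 1 = m + 1 := by omega
  rw [e1] at h1
  have h1' : ((K : ℝ) + 1) * ((m + 1) * adj2 G) ≤
      (m + 2) * (m + 1) * (c + K * (K + 1)) + K * ∑ z, (deg G z : ℝ) ^ 2 := by
    exact_mod_cast h1
  have h2' : ∑ z, (deg G z : ℝ) ^ 2 ≤ 2 * c * adj2 G := by exact_mod_cast h2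
  have hn' : 4 * (c : ℝ) + 2 ≤ m + 2 := by exact_mod_cast hn
  have hK : (0 : ℝ) < K + 1 := by positivity
  have hm1 : (0 : ℝ) < m + 1 := by positivity
  have hc : (0 : ℝ) ≤ c := by positivity
  have hK0 : (0 : ℝ) ≤ K := by positivity
  have hE : (0 : ℝ) ≤ adj2 G := by positivity
  push_cast
  have hD : ((K : ℝ) + 1) * ((c : ℝ) / (K + 1) + K) = c + K * (K + 1) := by
    field_simp
  set D : ℝ := (c : ℝ) / (K + 1) + K with hD'
  have hD0 : 0 ≤ D := by positivity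
  set E : ℝ := (adj2 G : ℝ) with hE'
  have h3 : (K : ℝ) * ∑ z, (deg G z : ℝ) ^ 2 ≤ (K + 1) * (2 * c * E) := by
    calc (K : ℝ) * ∑ z, (deg G z : ℝ) ^ 2 ≤ K * (2 * c * E) :=
          mul_le_mul_of_nonneg_left h2' hK0
      _ ≤ (K + 1) * (2 * c * E) := by
          apply mul_le_mul_of_nonneg_right _ (by positivity)
          linarith
  rw [← hD] at h1'
  have h4 : ((K : ℝ) + 1) * ((m + 1) * E) ≤ (K + 1) * ((m + 2) * (m + 1) * D + 2 * c * E) := by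
    nlinarith
  have h5 : ((m : ℝ) + 1) * E ≤ (m + 2) * (m + 1) * D + 2 * c * E :=
    le_of_mul_le_mul_left h4 hK
  have h6 : ((m : ℝ) + 1 - 2 * c) * E ≤ (m + 1 - 2 * c) * ((m + 2 + 8 * c) * D) := by
    have h7 : ((m : ℝ) + 2) * (m + 1) * D ≤ (m + 1 - 2 * c) * ((m + 2 + 8 * c) * D) := by
      have h8 : ((m : ℝ) + 2) * (m + 1) ≤ (m + 1 - 2 * c) * (m + 2 + 8 * c) := by
        nlinarith [mul_nonneg hc (sub_nonneg.2 hn')]
      nlinarith [mul_le_mul_of_nonneg_right h8 hD0]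
    linarith
  exact le_of_mul_le_mul_left h6 (by linarith)

theorem set_nonempty (n k : ℕ) : {e : ℕ | ∀ (P : Fin n → ℝ × ℝ) (G : SimpleGraph (Fin n)),
    GenPos P → e ≤ G.edgeSet.ncard →
      ∃ a b d : ℝ, (a ≠ 0 ∨ b ≠ 0) ∧ k ≤ met P G (lineOf a b d)}.Nonempty := by
  refine ⟨Nat.card (Sym2 (Fin n)) + 1, ?_⟩
  intro P G _ h
  exfalso
  have h1 : G.edgeSet.ncard ≤ Nat.card (Sym2 (Fin n)) := by
    rw [← Set.ncard_univ]
    exact Set.ncard_le_ncard (Set.subset_univ _)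
  omega

theorem lt_f {n k : ℕ} (P : Fin n → ℝ × ℝ) (G : SimpleGraph (Fin n)) (hP : GenPos P)
    (h : ∀ a b d : ℝ, (a ≠ 0 ∨ b ≠ 0) → met P G (lineOf a b d) < k) :
    G.edgeSet.ncard < f n k := by
  by_contra hcon
  push Not at hcon
  obtain ⟨a, b, d, h1, h2⟩ := Nat.sInf_mem (set_nonempty n k) P G hP hcon
  exact absurd h2 (by have := h a b d h1; omega)

theorem f_le {n c : ℕ} (B : ℝ) (hB : ∀ (P : Fin n → ℝ × ℝ) (G : SimpleGraph (Fin n)),
    GenPos P → (∀ a b d : ℝ, (a ≠ 0 ∨ b ≠ 0) → met P G (lineOf a b d) ≤ c) →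
      (G.edgeSet.ncard : ℝ) ≤ B) (hB0 : 0 ≤ B) : (f n (c + 1) : ℝ) ≤ B + 1 := by
  have h1 : f n (c + 1) ≤ ⌊B⌋₊ + 1 := by
    apply Nat.sInf_le
    intro P G hP hG
    by_contra hcon
    push Not at hcon
    have h2 := hB P G hP (fun a b d h => Nat.lt_succ_iff.1 (hcon a b d h))
    have h3 := Nat.lt_of_floor_lt (lt_of_lt_of_le (Nat.lt_succ_self _) hG)
    linarith
  have h2 : (⌊B⌋₊ : ℝ) ≤ B := Nat.floor_le hB0
  have h3 : (f n (c + 1) : ℝ) ≤ ⌊B⌋₊ + 1 := by exact_mod_cast h1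
  linarith

theorem f_mono (n : ℕ) {k l : ℕ} (h : k ≤ l) : f n k ≤ f n l := by
  apply Nat.sInf_le
  intro P G hP hG
  obtain ⟨a, b, d, h1, h2⟩ := Nat.sInf_mem (set_nonempty n l) P G hP hG
  exact ⟨a, b, d, h1, h.trans h2⟩

theorem lower (hLOW : S_LOW) (n j t k : ℕ) (ht : t ≤ j) (hk : j * (j + 1) + 2 * t + 1 ≤ k) :
    ((j : ℝ) + t / (j + 1)) * n - (j * (j + 1) + 2 * t) ≤ f n k := by
  obtain ⟨P, G, hP, h1, h2⟩ := hLOW n j t (by omega)
  have h3 : G.edgeSet.ncard < f n k := lt_f P G hP (fun a b d h => by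
    have := h1 a b d h
    omega)
  have h4 : (G.edgeSet.ncard : ℝ) ≤ f n k := by exact_mod_cast h3.le
  linarith

theorem coef_eq (j t : ℕ) :
    ((j * (j + 1) + 2 * t : ℕ) : ℝ) / (j + 1) + j = 2 * ((j : ℝ) + t / (j + 1)) := by
  push_cast
  field_simp
  ring

theorem upper_odd (hGEO : S_GEO) (hPAIR : S_PAIR) (hFAR : S_FAR) (hNEAR : S_NEAR)
    (n j t k : ℕ) (hk : k = j * (j + 1) + 2 * t + 1) (hn : 4 * k ≤ n) :
    (f n k : ℝ) ≤ ((j : ℝ) + t / (j + 1)) * (n + 8 * k) + 1 := by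
  rw [hk]
  apply f_le
  · intro P G hP h
    obtain ⟨V, hV⟩ := hGEO n P G _ hP h
    have h1 := upper' hPAIR hFAR hNEAR V G _ hV j (by rw [Fintype.card_fin]; omega)
    rw [Fintype.card_fin, coef_eq, adj2_eq] at h1
    push_cast at h1 ⊢
    have h2 : (0 : ℝ) ≤ (j : ℝ) + t / (j + 1) := by positivity
    nlinarith
  · positivity

theorem upper_even (hGEO : S_GEO) (hPAIR : S_PAIR) (hNEAR : S_NEAR) (hCUT : S_CUT)
    (hBLOCK : S_BLOCK) (hEDGE : S_EDGE) (n j t k : ℕ) (ht : t ≤ j)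
    (hk : k = j * (j + 1) + 2 * t + 2) (hn : 1 ≤ n) :
    (f n k : ℝ) ≤ ((j : ℝ) + t / (j + 1)) * n + 16 * k ^ 3 * √n := by
  obtain ⟨h, hh⟩ : ∃ h, j * (j + 1) = 2 * h := (Nat.even_mul_succ_self j).exists_two_nsmul _
  obtain ⟨M, hM⟩ : ∃ M, M = (4 * (h + t) + 2) + (4 * (h + t) + 2) ^ 2 := ⟨_, rfl⟩
  have hk' : k = 2 * (h + t) + 1 + 1 := by omega
  have hcoef : (2 * ((h + t : ℕ) : ℝ) / (j + 1) + j) = 2 * ((j : ℝ) + t / (j + 1)) := by
    rw [← coef_eq, hh]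
    push_cast
    ring
  have h0 : (f n k : ℝ) ≤ (((n : ℝ) + 2) * (j + t / (j + 1)) +
      2 * ((h + t : ℕ) + 1) * (M + 1) * √n + 2 * ((h + t : ℕ) + 1) * (2 * M + 1)) + 1 := by
    rw [hk']
    apply f_le
    · intro P G hP hG
      obtain ⟨V, hV⟩ := hGEO n P G _ hP hG
      have h1 := odd_bound hPAIR hNEAR hCUT hBLOCK hEDGE (h + t) j M hM n (Fin n) V G
        (Fintype.card_fin n) hV
      rw [hcoef, adj2_eq] at h1
      push_cast at h1 ⊢
      linarith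
    · positivity
  have hj : (j : ℝ) + t / (j + 1) ≤ k := by
    have h1 : (t : ℝ) / (j + 1) ≤ 1 := by
      rw [div_le_one (by positivity)]
      have : (t : ℝ) ≤ j := by exact_mod_cast ht
      linarith
    have h2 : j + 1 ≤ k := by
      rw [hk]
      nlinarith
    have h3 : (j : ℝ) + 1 ≤ k := by exact_mod_cast h2
    linarith
  have hx : (((h + t : ℕ) : ℝ) + 1) = k / 2 := by
    rw [hk']
    push_cast
    ring
  have hM1 : (M : ℝ) = (2 * k - 2) + (2 * k - 2) ^ 2 := by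
    have h1 : (4 : ℝ) * ((h + t : ℕ) : ℝ) + 2 = 2 * k - 2 := by linarith
    rw [hM, ← h1]
    push_cast
    ring
  rw [hx, hM1] at h0
  have hs : 1 ≤ √(n : ℝ) := by
    rw [Real.one_le_sqrt]
    exact_mod_cast hn
  have hk2 : (2 : ℝ) ≤ k := by
    rw [hk']
    push_cast
    have : (0 : ℝ) ≤ (h : ℝ) + t := by positivity
    linarith
  have h5 : 2 * ((k : ℝ) / 2) * ((2 * k - 2) + (2 * k - 2) ^ 2 + 1) ≤ 4 * k ^ 3 := by
    nlinarith [mul_nonneg (sub_nonneg.2 hk2) (sub_nonneg.2 hk2)]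
  have h6 : 2 * ((k : ℝ) / 2) * (2 * ((2 * k - 2) + (2 * k - 2) ^ 2) + 1) ≤ 8 * k ^ 3 := by
    nlinarith [mul_nonneg (sub_nonneg.2 hk2) (sub_nonneg.2 hk2)]
  have h7 : 2 * ((k : ℝ) / 2) * ((2 * k - 2) + (2 * k - 2) ^ 2 + 1) * √n ≤ 4 * k ^ 3 * √n :=
    mul_le_mul_of_nonneg_right h5 (by positivity)
  have h8 : (2 : ℝ) * k + 1 ≤ 4 * k ^ 3 := by
    nlinarith [mul_nonneg (sub_nonneg.2 hk2) (sub_nonneg.2 hk2)]
  have h9 : (12 : ℝ) * k ^ 3 * 1 ≤ 12 * k ^ 3 * √n :=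
    mul_le_mul_of_nonneg_left hs (by positivity)
  nlinarith

theorem exists_jt (k : ℕ) (hk : 1 ≤ k) :
    ∃ j t : ℕ, t ≤ j ∧ (k = j * (j + 1) + 2 * t + 1 ∨ k = j * (j + 1) + 2 * t + 2) := by
  induction k, hk using Nat.le_induction with
  | base => exact ⟨0, 0, le_rfl, Or.inl rfl⟩
  | succ k hk ih =>
    obtain ⟨j, t, ht, h | h⟩ := ih
    · exact ⟨j, t, ht, Or.inr (by omega)⟩
    · rcases Nat.lt_or_ge t j with h1 | h1
      · exact ⟨j, t + 1, h1, Or.inl (by omega)⟩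
      · refine ⟨j + 1, 0, Nat.zero_le _, Or.inl ?_⟩
        have : t = j := le_antisymm ht h1
        rw [h, this]
        ring

theorem coef_sq (j t : ℕ) (ht : t ≤ j) :
    ((j * (j + 1) + 2 * t : ℕ) : ℝ) ≤ ((j : ℝ) + t / (j + 1) + 1 / 2) ^ 2 ∧
      ((j : ℝ) + t / (j + 1) + 1 / 2) ^ 2 ≤ ((j * (j + 1) + 2 * t : ℕ) : ℝ) + 1 := by
  have hj : (0 : ℝ) < j + 1 := by positivity
  obtain ⟨τ, hτ⟩ : ∃ τ : ℝ, τ = t / (j + 1) := ⟨_, rfl⟩
  have h1 : (t : ℝ) = τ * (j + 1) := by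
    rw [hτ]
    field_simp
  have h2 : 0 ≤ τ := by rw [hτ]; positivity
  have h3 : τ ≤ 1 := by
    rw [hτ, div_le_one hj]
    have : (t : ℝ) ≤ j := by exact_mod_cast ht
    linarith
  rw [← hτ]
  push_cast
  rw [h1]
  constructor
  · nlinarith [sq_nonneg (τ - 1 / 2)]
  · nlinarith [mul_nonneg h2 (sub_nonneg.2 h3)]

theorem coef_bounds (j t k : ℕ) (ht : t ≤ j)
    (hk : k = j * (j + 1) + 2 * t + 1 ∨ k = j * (j + 1) + 2 * t + 2) :
    (j : ℝ) + t / (j + 1) + 1 / 2 ≤ √k ∧ √k ≤ (j : ℝ) + t / (j + 1) + 1 / 2 + 2 / √k := by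
  obtain ⟨h1, h2⟩ := coef_sq j t ht
  set c : ℝ := (j : ℝ) + t / (j + 1) + 1 / 2 with hc
  have hc0 : 0 ≤ c := by positivity
  have hk1 : ((j * (j + 1) + 2 * t : ℕ) : ℝ) + 1 ≤ k := by
    have : j * (j + 1) + 2 * t + 1 ≤ k := by omega
    exact_mod_cast this
  have hk2 : (k : ℝ) ≤ ((j * (j + 1) + 2 * t : ℕ) : ℝ) + 2 := by
    have : k ≤ j * (j + 1) + 2 * t + 2 := by omega
    exact_mod_cast this
  have h3 : c ≤ √k := by
    apply Real.le_sqrt_of_sq_le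
    linarith
  refine ⟨h3, ?_⟩
  have hk0 : (0 : ℝ) < k := by
    have : (0 : ℝ) ≤ ((j * (j + 1) + 2 * t : ℕ) : ℝ) := by positivity
    linarith
  have hs0 : 0 < √(k : ℝ) := Real.sqrt_pos.2 hk0
  have hs : √(k : ℝ) ^ 2 = k := Real.sq_sqrt hk0.le
  by_contra hcon
  push Not at hcon
  have h4 : (c + 2 / √(k : ℝ)) * √k = c * √k + 2 := by
    field_simp
  have h5 : (c + 2 / √(k : ℝ)) * √k < √k * √k := mul_lt_mul_of_pos_right hcon hs0
  nlinarith

theorem asym_lower (hLOW : S_LOW) (n k : ℕ) (hk : 1 ≤ k) :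
    (√k - 1 / 2) * n - 2 * n / √k - k ≤ (f n k : ℝ) := by
  obtain ⟨j, t, ht, hjt⟩ := exists_jt k hk
  have h1 := lower hLOW n j t k ht (by omega)
  obtain ⟨-, h2⟩ := coef_bounds j t k ht hjt
  have h3 : ((j : ℝ) * (j + 1) + 2 * t) ≤ k := by
    have : j * (j + 1) + 2 * t ≤ k := by omega
    exact_mod_cast this
  have hn : (0 : ℝ) ≤ n := by positivity
  have h4 : (√k - 1 / 2 - 2 / √(k : ℝ)) * n ≤ ((j : ℝ) + t / (j + 1)) * n := by
    apply mul_le_mul_of_nonneg_right _ hn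
    linarith
  have h5 : (√k - 1 / 2 - 2 / √(k : ℝ)) * n = (√k - 1 / 2) * n - 2 * n / √k := by ring
  linarith

theorem asym_upper_odd (hGEO : S_GEO) (hPAIR : S_PAIR) (hFAR : S_FAR) (hNEAR : S_NEAR)
    (n k : ℕ) (hk : Odd k) (hn : 4 * k ≤ n) :
    (f n k : ℝ) ≤ (√k - 1 / 2) * (n + 8 * k) + 1 := by
  obtain ⟨j, t, ht, hjt⟩ := exists_jt k hk.pos
  have hjt' : k = j * (j + 1) + 2 * t + 1 := by
    rcases hjt with h | h
    · exact h
    · exfalso
      have h1 := Nat.even_mul_succ_self j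
      have h2 : Even k := by
        rw [h]
        exact ((h1.add (even_two_mul t)).add even_two)
      exact (Nat.not_even_iff_odd.2 hk) h2
  have h1 := upper_odd hGEO hPAIR hFAR hNEAR n j t k hjt' hn
  obtain ⟨h2, -⟩ := coef_bounds j t k ht hjt
  have h4 : ((j : ℝ) + t / (j + 1)) * (n + 8 * k) ≤ (√k - 1 / 2) * (n + 8 * k) := by
    apply mul_le_mul_of_nonneg_right _ (by positivity)
    linarith
  linarith

theorem asym (hGEO : S_GEO) (hPAIR : S_PAIR) (hFAR : S_FAR) (hNEAR : S_NEAR) (hLOW : S_LOW)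
    (n k : ℕ) (hk : 1 ≤ k) (hn : 4 * (k + 1) ≤ n) :
    |(f n k : ℝ) - (√k - 1 / 2) * n| ≤ 2 * n / √k + 32 * (k * √k) := by
  have hk0 : (1 : ℝ) ≤ k := by exact_mod_cast hk
  have hs1 : 1 ≤ √(k : ℝ) := by
    rw [Real.one_le_sqrt]
    exact hk0
  have hs : √(k : ℝ) ^ 2 = k := Real.sq_sqrt (by linarith)
  have hn0 : (0 : ℝ) ≤ n := by positivity
  have hks : (k : ℝ) ≤ k * √k := by nlinarith
  have hq : 0 ≤ (n : ℝ) / √k := by positivity
  rw [abs_le]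
  constructor
  · have h1 := asym_lower hLOW n k hk
    linarith
  · have h0 : (f n k : ℝ) ≤ (√k - 1 / 2) * n + n / √k + (16 * (k * √k) + 1) := by
      rcases Nat.even_or_odd k with he | ho
      · have h1 := asym_upper_odd hGEO hPAIR hFAR hNEAR n (k + 1) he.add_one (by omega)
        have h2 : (f n k : ℝ) ≤ f n (k + 1) := by exact_mod_cast f_mono n (Nat.le_succ k)
        have h3 : √((k + 1 : ℕ) : ℝ) ≤ √k + 1 / (2 * √k) := by
          rw [Real.sqrt_le_iff]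
          constructor
          · positivity
          · have h4 : (√(k : ℝ) + 1 / (2 * √k)) ^ 2 = √k ^ 2 + 1 + (1 / (2 * √k)) ^ 2 := by
              field_simp
              ring
            rw [h4, hs]
            push_cast
            have : 0 ≤ (1 / (2 * √(k : ℝ))) ^ 2 := by positivity
            linarith
        have h5 : 1 / (2 * √(k : ℝ)) ≤ 1 / 2 := by
          apply one_div_le_one_div_of_le (by norm_num)
          linarith
        have h6 : (√((k + 1 : ℕ) : ℝ) - 1 / 2) * (n + 8 * ((k + 1 : ℕ) : ℝ)) ≤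
            (√k + 1 / (2 * √k) - 1 / 2) * n + √k * (8 * (k + 1)) := by
          push_cast at h3 ⊢
          have h7 : (√((k : ℝ) + 1) - 1 / 2) * n ≤ (√k + 1 / (2 * √k) - 1 / 2) * n :=
            mul_le_mul_of_nonneg_right (by linarith) hn0
          have h8 : (√((k : ℝ) + 1) - 1 / 2) * (8 * (k + 1)) ≤ √k * (8 * (k + 1)) :=
            mul_le_mul_of_nonneg_right (by linarith) (by positivity)
          linarith
        have h9 : (√k + 1 / (2 * √(k : ℝ)) - 1 / 2) * n = (√k - 1 / 2) * n + n / √k / 2 := by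
          field_simp
          ring
        have h10 : √(k : ℝ) * (8 * (k + 1)) ≤ 16 * (k * √k) := by nlinarith
        linarith
      · have h1 := asym_upper_odd hGEO hPAIR hFAR hNEAR n k ho (by omega)
        nlinarith
    have h11 : (2 : ℝ) * n / √k = 2 * (n / √k) := by ring
    rw [h11]
    linarith

end Pool.Agent.Q165.GL
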