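import Pool.Agent.Q165.GL.Sum

/-!
# Project GL: the bound for lines meeting at most `2 h + 1` edges, by induction
-/

set_option autoImplicit false

namespace Pool.Agent.Q165.GL

open Finset

section

variable {ι : Type} [Fintype ι] [DecidableEq ι]

/-- If there are many edges, there is a large set `W` of vertices which touches few edges. -/
theorem step (hPAIR : S_PAIR) (hNEAR : S_NEAR) (hCUT : S_CUT) (hBLOCK : S_BLOCK) (hEDGE : S_EDGE)
    (V : Views ι) (G : SimpleGraph ι) (h K m M : ℕ) (hB : Bdd V G (2 * h + 1))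
    (hM : M = (4 * h + 2) + (4 * h + 2) ^ 2) (hn : 4 ≤ Fintype.card ι) (hm : 1 ≤ m)
    (hX : ((Fintype.card ι : ℝ) + 2) * (2 * h / (K + 1) + K) + 4 * (h + 1) * ((M + 1) * m + M) <
      adj2 G) :
    ∃ W : Finset ι, m ≤ W.card ∧
      (K + 1) * cnt (fun q : ι × ι => G.Adj q.1 q.2 ∧ (q.1 ∈ W ∨ q.2 ∈ W)) ≤
        W.card * (2 * h + K * (K + 1)) + (K + 1) * (4 * h + 2 * (4 * h + 2) ^ 2) := by
  have hdeg : ∀ z, deg G z ≤ 4 * h + 2 := by
    intro z
    have := deg_le hPAIR V G (2 * h + 1) hB z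
    omega
  have hc : ∀ y x, y ≠ x → ∀ σ, nearN V G y x σ ≤ 2 * h + 1 := by
    intro y x hyx σ
    have := hCUT ι V G (2 * h + 1) hB y x hyx σ True
    omega
  have h1 : ∃ y σ, (M + 1) * m + M < cnt (fun x : ι => x ≠ y ∧ h + 1 ≤ nearN V G y x σ) := by
    by_contra hcon
    push Not at hcon
    have h2 := pigeon hNEAR V G K h ((M + 1) * m + M) hc hcon
    obtain ⟨n, hn'⟩ : ∃ n, Fintype.card ι = n + 4 := ⟨Fintype.card ι - 4, by omega⟩
    rw [hn'] at h2 hX
    have e1 : n + 4 - 1 = n + 3 := by omega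
    rw [e1] at h2
    have h2' : ((K : ℝ) + 1) * ((n + 4) * adj2 G) ≤
        (n + 4) * ((n + 3) * (2 * h + (K + 1) * K)) +
        2 * ((n + 4) * ((h + 1) * ((M + 1) * m + M))) + (K + 1) * (2 * adj2 G) := by
      exact_mod_cast h2
    push_cast at hX
    have hK : (0 : ℝ) < K + 1 := by positivity
    set T : ℝ := ((h : ℝ) + 1) * ((M + 1) * m + M) with hT
    have hT0 : 0 ≤ T := by positivity
    have hn0 : (0 : ℝ) ≤ n := by positivity
    have hK0 : (0 : ℝ) ≤ K := by positivity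
    set D : ℝ := 2 * h + (K + 1) * K with hD
    have hD0 : 0 ≤ D := by positivity
    have hD1 : (K + 1) * (2 * h / (K + 1) + K) = D := by
      rw [hD]
      field_simp
    have h3 : ((n : ℝ) + 2) * ((n + 4 + 2) * D) + (K + 1) * (n + 2) * (4 * T) <
        (K + 1) * (n + 2) * adj2 G := by
      have h4 : ((K : ℝ) + 1) * (n + 2) * ((n + 4 + 2) * (2 * h / (K + 1) + K) +
          4 * (h + 1) * ((M + 1) * m + M)) < (K + 1) * (n + 2) * adj2 G := by
        apply mul_lt_mul_of_pos_left hX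
        positivity
      have h5 : ((K : ℝ) + 1) * (n + 2) * ((n + 4 + 2) * (2 * h / (K + 1) + K) +
          4 * (h + 1) * ((M + 1) * m + M)) = (n + 2) * ((n + 4 + 2) *
          ((K + 1) * (2 * h / (K + 1) + K))) + (K + 1) * (n + 2) * (4 * T) := by
        rw [hT]
        ring
      rw [h5, hD1] at h4
      exact h4
    have h6 : ((n : ℝ) + 4) * ((n + 3) * D) ≤ (n + 2) * ((n + 4 + 2) * D) := by
      nlinarith [mul_nonneg hn0 hD0]
    have h7 : 2 * (((n : ℝ) + 4) * T) ≤ (K + 1) * (n + 2) * (4 * T) := by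
      nlinarith [mul_nonneg hn0 hT0, mul_nonneg hK0 (mul_nonneg hn0 hT0), mul_nonneg hK0 hT0]
    nlinarith
  obtain ⟨y, σ, h1⟩ := h1
  obtain ⟨W, hW1, hW2, hW3⟩ := hBLOCK ι V G y σ (4 * h + 2) (h + 1) m hdeg (by
    rw [← hM]
    exact h1.le)
  refine ⟨W, hW1, ?_⟩
  have hWn : W.Nonempty := card_pos.1 (by omega)
  have h8 := hEDGE ι V G y W h K hWn (fun x hx => (hW2 x hx).1) (by
    intro x hx τ
    have := hCUT ι V G (2 * h + 1) hB y x (hW2 x hx).1.symm σ τ
    have := (hW2 x hx).2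
    omega) hW3
  have h9 := dd_le G (4 * h + 2) hdeg y
  refine h8.trans ?_
  apply Nat.add_le_add_left
  apply Nat.mul_le_mul_left
  omega

end

theorem odd_bound (hPAIR : S_PAIR) (hNEAR : S_NEAR) (hCUT : S_CUT) (hBLOCK : S_BLOCK)
    (hEDGE : S_EDGE) (h K M : ℕ) (hM : M = (4 * h + 2) + (4 * h + 2) ^ 2) :
    ∀ (n : ℕ) (ι : Type) [Fintype ι] [DecidableEq ι] (V : Views ι) (G : SimpleGraph ι),
      Fintype.card ι = n → Bdd V G (2 * h + 1) →
      (adj2 G : ℝ) ≤ ((n : ℝ) + 2) * (2 * h / (K + 1) + K) + 4 * (h + 1) * (M + 1) * √n +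
        4 * (h + 1) * (2 * M + 1) := by
  intro n
  induction n using Nat.strong_induction_on with
  | _ n ih =>
  intro ι _ _ V G hn hB
  have hh0 : (0 : ℝ) ≤ h := by positivity
  have hM0 : (0 : ℝ) ≤ M := by positivity
  have hc0 : (0 : ℝ) ≤ 2 * h / (K + 1) + K := by positivity
  have hM' : (M : ℝ) = (4 * h + 2) + (4 * h + 2) ^ 2 := by rw [hM]; push_cast; ring
  by_cases hn4 : n < 4
  · have h1 := adj2_le hPAIR V G _ hB
    rw [hn] at h1
    have h2 : adj2 G ≤ 2 * (2 * h + 1) * 3 := h1.trans (Nat.mul_le_mul_left _ (by omega))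
    have h3 : (adj2 G : ℝ) ≤ 2 * (2 * h + 1) * 3 := by exact_mod_cast h2
    have h4 : (0 : ℝ) ≤ ((n : ℝ) + 2) * (2 * h / (K + 1) + K) := by positivity
    have h5 : (0 : ℝ) ≤ 4 * (h + 1) * (M + 1) * √n := by positivity
    have h6 : (2 : ℝ) * (2 * h + 1) * 3 ≤ 4 * (h + 1) * (2 * M + 1) := by
      rw [hM']
      nlinarith [mul_nonneg hh0 hh0, mul_nonneg (mul_nonneg hh0 hh0) hh0]
    linarith
  push Not at hn4
  by_contra hcon
  push Not at hcon
  set m : ℕ := ⌈√(n : ℝ)⌉₊ with hm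
  have hn0 : (4 : ℝ) ≤ n := by exact_mod_cast hn4
  have hs0 : 0 < √(n : ℝ) := Real.sqrt_pos.2 (by linarith)
  have hm1 : √(n : ℝ) ≤ m := Nat.le_ceil _
  have hm2 : (m : ℝ) < √n + 1 := Nat.ceil_lt_add_one hs0.le
  have hm3 : 1 ≤ m := Nat.one_le_ceil_iff.2 hs0
  obtain ⟨W, hW1, hW2⟩ := step hPAIR hNEAR hCUT hBLOCK hEDGE V G h K m M hB hM (by omega) hm3 (by
    rw [hn]
    refine lt_of_le_of_lt ?_ hcon
    have h7 : 4 * ((h : ℝ) + 1) * ((M + 1) * m + M) ≤
        4 * (h + 1) * ((M + 1) * (√n + 1) + M) := by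
      apply mul_le_mul_of_nonneg_left _ (by positivity)
      nlinarith
    nlinarith)
  have hWn : W.card ≤ n := by
    rw [← hn]
    exact card_le_univ W
  have hWm : (√(n : ℝ)) ≤ W.card := hm1.trans (by exact_mod_cast hW1)
  have hcard : Fintype.card {x // x ∉ W} = n - W.card := by
    rw [Fintype.card_subtype_compl, hn, Fintype.card_coe]
  have h8 := ih (n - W.card) (by omega) {x // x ∉ W}
    (subV V Subtype.val Subtype.val_injective) (G.comap Subtype.val) hcard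
    (sub_bdd V G _ hB _ _)
  have h9 := sub_adj2 G W (Subtype.val : {x // x ∉ W} → ι) (fun x hx => ⟨⟨x, hx⟩, rfl⟩)
  set P := cnt (fun q : ι × ι => G.Adj q.1 q.2 ∧ (q.1 ∈ W ∨ q.2 ∈ W)) with hP
  set a' := adj2 (G.comap (Subtype.val : {x // x ∉ W} → ι)) with ha'
  have h9' : (adj2 G : ℝ) ≤ a' + P := by exact_mod_cast h9
  have hW2' : ((K : ℝ) + 1) * P ≤ W.card * (2 * h + K * (K + 1)) +
      (K + 1) * (4 * h + 2 * (4 * h + 2) ^ 2) := by exact_mod_cast hW2
  have hK : (0 : ℝ) < K + 1 := by positivity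
  have h10 : (P : ℝ) ≤ W.card * (2 * h / (K + 1) + K) + (4 * h + 2 * (4 * h + 2) ^ 2) := by
    have h11 : (W.card : ℝ) * (2 * h / (K + 1) + K) + (4 * h + 2 * (4 * h + 2) ^ 2) =
        (W.card * (2 * h + K * (K + 1)) + (K + 1) * (4 * h + 2 * (4 * h + 2) ^ 2)) / (K + 1) := by
      field_simp
    rw [h11, le_div_iff₀ hK]
    linarith
  have h12 : ((n - W.card : ℕ) : ℝ) = n - W.card := by
    rw [Nat.cast_sub hWn]
  rw [h12] at h8
  have hWn' : (W.card : ℝ) ≤ n := by exact_mod_cast hWn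
  have hsq : √(n : ℝ) ^ 2 = n := Real.sq_sqrt (by linarith)
  have hs1 : 1 ≤ √(n : ℝ) := by
    rw [Real.one_le_sqrt]
    linarith
  have h13 : √((n : ℝ) - W.card) ≤ √n - 1 / 2 := by
    rw [Real.sqrt_le_iff]
    constructor
    · linarith
    · nlinarith
  have h14 : 4 * ((h : ℝ) + 1) * (M + 1) * √((n : ℝ) - W.card) ≤
      4 * (h + 1) * (M + 1) * √n - (4 * h + 2 * (4 * h + 2) ^ 2) := by
    have h15 : 4 * ((h : ℝ) + 1) * (M + 1) * √((n : ℝ) - W.card) ≤
        4 * (h + 1) * (M + 1) * (√n - 1 / 2) := by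
      apply mul_le_mul_of_nonneg_left h13
      positivity
    have h16 : (4 * (h : ℝ) + 2 * (4 * h + 2) ^ 2) ≤ 2 * (h + 1) * (M + 1) := by
      rw [hM']
      nlinarith [mul_nonneg hh0 hh0, mul_nonneg (mul_nonneg hh0 hh0) hh0]
    have h18 : 4 * ((h : ℝ) + 1) * (M + 1) * (√n - 1 / 2) =
        4 * (h + 1) * (M + 1) * √n - 2 * (h + 1) * (M + 1) := by ring
    rw [h18] at h15
    linarith
  have h17 : ((n : ℝ) - W.card + 2) * (2 * h / (K + 1) + K) +
      W.card * (2 * h / (K + 1) + K) = (n + 2) * (2 * h / (K + 1) + K) := by ring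
  linarith

end Pool.Agent.Q165.GL
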