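import Pool.Agent.Q165.GL.Basic

/-!
# Project GL: the main inequality
-/

set_option autoImplicit false

namespace Pool.Agent.Q165.GL

open Finset

variable {ι : Type} [Fintype ι] [DecidableEq ι]

/-- the sum over all ordered pairs of different points -/
def dsum (F : ι → ι → ℕ) : ℕ := ∑ y, ∑ x ∈ univ.erase y, F y x

theorem dsum_add (F H : ι → ι → ℕ) : dsum (fun y x => F y x + H y x) = dsum F + dsum H := by
  unfold dsum
  rw [← sum_add_distrib]
  apply sum_congr rfl
  intro y _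
  rw [sum_add_distrib]

theorem dsum_mono {F H : ι → ι → ℕ} (h : ∀ y x, y ≠ x → F y x ≤ H y x) : dsum F ≤ dsum H := by
  unfold dsum
  apply sum_le_sum
  intro y _
  apply sum_le_sum
  intro x hx
  exact h y x (mem_erase.1 hx).1.symm

theorem dsum_congr {F H : ι → ι → ℕ} (h : ∀ y x, y ≠ x → F y x = H y x) : dsum F = dsum H :=
  le_antisymm (dsum_mono fun y x hyx => (h y x hyx).le) (dsum_mono fun y x hyx => (h y x hyx).ge)

theorem dsum_eq_ite (F : ι → ι → ℕ) : dsum F = ∑ y, ∑ x, if y ≠ x then F y x else 0 := by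
  unfold dsum
  apply sum_congr rfl
  intro y _
  rw [← sum_filter]
  apply sum_congr _ fun _ _ => rfl
  ext x
  simp only [mem_erase, mem_univ, and_true, mem_filter, true_and]
  exact ne_comm

theorem dsum_comm (F : ι → ι → ℕ) : dsum F = dsum fun y x => F x y := by
  rw [dsum_eq_ite, dsum_eq_ite, sum_comm]
  apply sum_congr rfl
  intro y _
  apply sum_congr rfl
  intro x _
  by_cases h : x = y
  · simp [h]
  · simp [h, Ne.symm h]

theorem dsum_left (g : ι → ℕ) : dsum (fun y _ => g y) = (Fintype.card ι - 1) * ∑ y, g y := by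
  unfold dsum
  rw [mul_sum]
  apply sum_congr rfl
  intro y _
  rw [sum_const, card_erase_of_mem (mem_univ y), card_univ, smul_eq_mul]

theorem dsum_const (c : ℕ) : dsum (fun _ _ : ι => c) =
    Fintype.card ι * (Fintype.card ι - 1) * c := by
  rw [dsum_left, sum_const, card_univ, smul_eq_mul]
  ring

theorem dsum_mul (c : ℕ) (F : ι → ι → ℕ) : dsum (fun y x => c * F y x) = c * dsum F := by
  unfold dsum
  rw [mul_sum]
  apply sum_congr rfl
  intro y _
  rw [mul_sum]

theorem far_sum (hFAR : S_FAR) (V : Views ι) (G : SimpleGraph ι) (K : ℕ) :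
    K * (Fintype.card ι * adj2 G) ≤ 2 * dsum (far V G) +
      Fintype.card ι * ((Fintype.card ι - 1) * ((K + 1) * K)) + K * (2 * ∑ z, deg G z ^ 2) := by
  have h1 : ∀ y, K * adj2 G ≤ 2 * ∑ x ∈ univ.erase y, far V G y x +
      (Fintype.card ι - 1) * ((K + 1) * K) + K * (2 * dd G y) := by
    intro y
    have h2 := hFAR ι V G y K
    have h3 := Nat.mul_le_mul_left K (adj2_le_far G y)
    rw [mul_add] at h3
    omega
  have h4 : ∑ _y : ι, K * adj2 G ≤ ∑ y : ι, (2 * ∑ x ∈ univ.erase y, far V G y x +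
      (Fintype.card ι - 1) * ((K + 1) * K) + K * (2 * dd G y)) := sum_le_sum fun y _ => h1 y
  rw [sum_const, card_univ, smul_eq_mul, sum_add_distrib, sum_add_distrib, ← mul_sum, sum_const,
    card_univ, smul_eq_mul, ← mul_sum, ← mul_sum, sum_dd] at h4
  unfold dsum
  calc K * (Fintype.card ι * adj2 G) = Fintype.card ι * (K * adj2 G) := by ring
    _ ≤ _ := h4

theorem near_sum (hNEAR : S_NEAR) (V : Views ι) (G : SimpleGraph ι) (K : ℕ) :
    K * (Fintype.card ι * adj2 G) ≤ 2 * dsum (nex V G) +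
      Fintype.card ι * ((Fintype.card ι - 1) * ((K + 1) * K)) + K * (2 * adj2 G) := by
  have h1 : ∀ y, K * adj2 G ≤ 2 * ∑ x ∈ univ.erase y, nex V G y x +
      (Fintype.card ι - 1) * ((K + 1) * K) + K * (2 * deg G y) := by
    intro y
    have h2 := hNEAR ι V G y K
    have h3 := congrArg (fun t => K * t) (avoid G y)
    simp only [mul_add] at h3
    omega
  have h4 : ∑ _y : ι, K * adj2 G ≤ ∑ y : ι, (2 * ∑ x ∈ univ.erase y, nex V G y x +
      (Fintype.card ι - 1) * ((K + 1) * K) + K * (2 * deg G y)) := sum_le_sum fun y _ => h1 y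
  rw [sum_const, card_univ, smul_eq_mul, sum_add_distrib, sum_add_distrib, ← mul_sum, sum_const,
    card_univ, smul_eq_mul, ← mul_sum, ← mul_sum, sum_deg] at h4
  unfold dsum
  calc K * (Fintype.card ι * adj2 G) = Fintype.card ι * (K * adj2 G) := by ring
    _ ≤ _ := h4

theorem nex_sum (V : Views ι) (G : SimpleGraph ι) : dsum (nex V G) = dsum (nea V G) := by
  rw [dsum_comm (nea V G)]
  exact dsum_congr fun y x h => nex_eq V G h

theorem pair_sum (hPAIR : S_PAIR) (V : Views ι) (G : SimpleGraph ι) (c : ℕ) (hB : Bdd V G c) :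
    2 * (dsum (far V G) + dsum (nea V G)) + 2 * ((Fintype.card ι - 1) * adj2 G) ≤
      Fintype.card ι * (Fintype.card ι - 1) * (2 * c) := by
  have h1 : dsum (fun y x => 2 * (far V G y x + nea V G y x) + (deg G y + deg G x)) ≤
      dsum (fun _ _ : ι => 2 * c) := by
    apply dsum_mono
    intro y x h
    have := hPAIR ι V G c hB y x h
    rw [sep_eq] at this
    omega
  rw [dsum_add, dsum_mul, dsum_add, dsum_add, dsum_const, dsum_left,
    dsum_comm (fun _ x => deg G x), dsum_left, sum_deg] at h1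
  omega

/-- **The main inequality.** -/
theorem main_ineq (hPAIR : S_PAIR) (hFAR : S_FAR) (hNEAR : S_NEAR) (V : Views ι)
    (G : SimpleGraph ι) (c : ℕ) (hB : Bdd V G c) (K : ℕ) :
    (K + 1) * ((Fintype.card ι - 1) * adj2 G) ≤
      Fintype.card ι * (Fintype.card ι - 1) * (c + K * (K + 1)) + K * ∑ z, deg G z ^ 2 := by
  have h1 := far_sum hFAR V G K
  have h2 := near_sum hNEAR V G K
  have h3 := pair_sum hPAIR V G c hB
  rw [nex_sum] at h2
  rcases Nat.eq_zero_or_pos (Fintype.card ι) with h0 | h0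
  · rw [h0] at h1 h2 h3 ⊢
    simp
  obtain ⟨m, hm⟩ : ∃ m, Fintype.card ι = m + 1 := ⟨Fintype.card ι - 1, by omega⟩
  rw [hm] at h1 h2 h3 ⊢
  simp only [Nat.add_sub_cancel] at h1 h2 h3 ⊢
  nlinarith

theorem deg_le (hPAIR : S_PAIR) (V : Views ι) (G : SimpleGraph ι) (c : ℕ) (hB : Bdd V G c)
    (y : ι) : deg G y ≤ 2 * c := by
  by_cases h : ∃ x, y ≠ x
  · obtain ⟨x, hx⟩ := h
    have := hPAIR ι V G c hB y x hx
    omega
  · push Not at h
    have : deg G y = 0 := by
      unfold deg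
      apply cnt_eq_zero
      intro z hz
      exact hz.ne (h z)
    omega

theorem sum_sq_le (hPAIR : S_PAIR) (V : Views ι) (G : SimpleGraph ι) (c : ℕ) (hB : Bdd V G c) :
    ∑ z, deg G z ^ 2 ≤ 2 * c * adj2 G := by
  rw [← sum_deg, mul_sum]
  apply sum_le_sum
  intro z _
  rw [sq]
  exact Nat.mul_le_mul_right _ (deg_le hPAIR V G c hB z)

theorem adj2_le (hPAIR : S_PAIR) (V : Views ι) (G : SimpleGraph ι) (c : ℕ) (hB : Bdd V G c) :
    adj2 G ≤ 2 * c * Fintype.card ι := by
  rw [← sum_deg]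
  calc ∑ y, deg G y ≤ ∑ _y : ι, 2 * c := sum_le_sum fun y _ => deg_le hPAIR V G c hB y
    _ = 2 * c * Fintype.card ι := by rw [sum_const, card_univ, smul_eq_mul, mul_comm]

/-- the upper bound, `e ≤ n (c/(K+1) + K)/2 + 4 c^2` -/
theorem upper (hPAIR : S_PAIR) (hFAR : S_FAR) (hNEAR : S_NEAR) (V : Views ι)
    (G : SimpleGraph ι) (c : ℕ) (hB : Bdd V G c) (K : ℕ) :
    (adj2 G : ℝ) ≤ Fintype.card ι * ((c : ℝ) / (K + 1) + K) + 8 * c ^ 2 := by
  rcases Nat.lt_or_ge (Fintype.card ι) 2 with h0 | h0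
  · have h1 : adj2 G = 0 := by
      unfold adj2
      apply cnt_eq_zero
      rintro ⟨p, q⟩ h
      exact h.ne (Fintype.card_le_one_iff.1 (by omega) p q)
    rw [h1, Nat.cast_zero]
    positivity
  have h1 := main_ineq hPAIR hFAR hNEAR V G c hB K
  have h2 := sum_sq_le hPAIR V G c hB
  have h3 := adj2_le hPAIR V G c hB
  obtain ⟨m, hm⟩ : ∃ m, Fintype.card ι = m + 2 := ⟨Fintype.card ι - 2, by omega⟩
  rw [hm] at h1 h3 ⊢
  have e1 : m + 2 - 1 = m + 1 := by omega
  rw [e1] at h1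
  have h1' : ((K : ℝ) + 1) * ((m + 1) * adj2 G) ≤
      (m + 2) * (m + 1) * (c + K * (K + 1)) + K * ∑ z, (deg G z : ℝ) ^ 2 := by
    exact_mod_cast h1
  have h2' : ∑ z, (deg G z : ℝ) ^ 2 ≤ 2 * c * adj2 G := by exact_mod_cast h2
  have h3' : (adj2 G : ℝ) ≤ 2 * c * (m + 2) := by exact_mod_cast h3
  have hK : (0 : ℝ) < K + 1 := by positivity
  have hm1 : (0 : ℝ) < m + 1 := by positivity
  have hc : (0 : ℝ) ≤ c := by positivity
  have hK0 : (0 : ℝ) ≤ K := by positivity
  push_cast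
  have h4 : ((K : ℝ) + 1) * ((m + 1) * adj2 G) ≤
      (m + 2) * (m + 1) * (c + K * (K + 1)) + (K + 1) * (m + 1) * (8 * c ^ 2) := by
    have h5 : (K : ℝ) * ∑ z, (deg G z : ℝ) ^ 2 ≤ K * (2 * c * (2 * c * (m + 2))) := by
      apply mul_le_mul_of_nonneg_left _ hK0
      exact h2'.trans (mul_le_mul_of_nonneg_left h3' (by positivity))
    have h6 : (K : ℝ) * (2 * c * (2 * c * (m + 2))) ≤ (K + 1) * (m + 1) * (8 * c ^ 2) := by
      have : (0 : ℝ) ≤ m := by positivity
      nlinarith [mul_nonneg hK0 (mul_nonneg (mul_nonneg hc hc) this), mul_nonneg hc hc,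
        mul_nonneg (mul_nonneg hc hc) this]
    linarith
  have h7 : ((m : ℝ) + 2) * (c / (K + 1) + K) + 8 * c ^ 2 =
      ((m + 2) * (m + 1) * (c + K * (K + 1)) + (K + 1) * (m + 1) * (8 * c ^ 2)) /
        ((K + 1) * (m + 1)) := by
    field_simp
  rw [h7, le_div_iff₀ (by positivity)]
  nlinarith

end Pool.Agent.Q165.GL
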