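import Pool.Agent.Q165.GL.Defs

/-!
# Project GL (helper165): edges of a geometric graph met by one line (row MP_b5bf4a_co)

Result: for every fixed `k`, `f(n,k) = c_k n + O(√n)` (`O(k^2)` for odd `k`, uniformly in `n`), where
`c_k = min_j (h/(j+1) + j/2)`, `h = ⌊(k-1)/2⌋`; the row asks for `f(n,k)`, known only for `k ≤ 3`.

All the statements below were tested numerically on thousands of random geometric graphs.
In the proofs `χ(y,x,z) = V.chi y x z`, `n` is the number of vertices, `N(y)` the neighbourhood,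
`d_y` the degree.  Formal remarks: `χ(y,x,z) = - χ(y,z,x)` by the formula, `χ(y,x,z) ≠ 0` for
different `y, x, z` (`ha`, `hr`), and `0 < χ(y,x,z) ↔ χ(x,y,z) < 0` (`swap`).
`χ(y,x,z) = a y x * (a y z * (r y z - r y x))`, so the sign of `χ(y,x,z)` is the sign of `a y x` times
the sign of the number in `ns V y x z`.
-/

set_option autoImplicit false

namespace Pool.Agent.Q165.GL

open Finset

/-- JOB GL-GEO.  Geometry.
Proof.  Views.  For `y` choose a vector `w = (w1, w2) ≠ 0` with `⟨w, P x - P y⟩ ≠ 0` for all `x ≠ y` (finitely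
many directions are excluded: take `w = (1, t)` with a suitable real `t`; each `x` excludes at most one
`t`, and if `P x - P y = (0, v)` it excludes `t = 0`).  Put `v_x = P x - P y`, `a y x = ⟨w, v_x⟩`,
`r y x = (w1 v_x.2 - w2 v_x.1) / a y x`.  Then `a y x a y z (r y z - r y x) = |w|² (v_x.1 v_z.2 - v_x.2 v_z.1)`
(`ring`/`field_simp`), a positive multiple of the orientation determinant
`D(y,x,z) = (P x - P y) × (P z - P y)`, which is not `0` as the three points are not collinear, and
`D(x,y,z) = -D(y,x,z)`.  This gives `hr` and `swap`.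
Bound.  Let `y ≠ x`, `u = P x - P y`, `g(p) = u.1 (p.2 - (P y).2) - u.2 (p.1 - (P y).1)
 + ε (s + (t - s) ⟨u, p - P y⟩ / |u|²)` with `s = ±1` (`+1` iff `σ`), `t = ±1` (`+1` iff `τ`), `ε > 0` small.
`g` is an affine function `a p.1 + b p.2 - d`; `g(P y) = ε s`, `g(P x) = ε t`, and for the other points the sign
of `g(P z)` is the sign of `D(y,x,z)` if `ε` is small (finitely many conditions).  `(a, b) ≠ 0`: the linear
part of `g` at the vector `(-u.2, u.1)` is `|u|² ≠ 0`.  If `g(P p) > 0 > g(P q)` then the point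
`P p + t (P q - P p)`, `t = g(P p) / (g(P p) - g(P q))`, is in the open segment and on the line `g = 0`.  So the
edges counted in `cut G (side V y x σ τ)` (each as one ordered pair `(p, q)`, `p` on the positive side; the
map `(p, q) ↦ s(p, q)` is injective on them) are among those counted in `met P G (lineOf a b d)`. -/
def S_GEO : Prop := ∀ (n : ℕ) (P : Fin n → ℝ × ℝ) (G : SimpleGraph (Fin n)) (c : ℕ), GenPos P →
  (∀ a b d : ℝ, (a ≠ 0 ∨ b ≠ 0) → met P G (lineOf a b d) ≤ c) →
  ∃ V : Views (Fin n), Bdd V G c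

/-- JOB GL-PAIR.
Proof.  Add the cuts for `(σ, τ) = (True, False)` and `(False, True)`.  Every pair `(p, q)` counted in
`sep V G y x` is counted in both.  For a neighbour `q` of `y`, `q ≠ x`: if `χ(y,x,q) > 0` the pair `(q, y)` is
counted for `(False, True)`, otherwise (`χ < 0`) the pair `(y, q)` is counted for `(True, False)`.  In the same way
for a neighbour `q` of `x`, `q ≠ y`.  If `y` and `x` are adjacent, `(y, x)` is counted for `(True, False)` and
`(x, y)` for `(False, True)`.  So the sum is at least `2 sep + d_y + d_x`. -/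
def S_PAIR : Prop := ∀ (ι : Type) [Fintype ι] (V : Views ι) (G : SimpleGraph ι) (c : ℕ), Bdd V G c →
  ∀ y x : ι, y ≠ x → 2 * sep V G y x + deg G y + deg G x ≤ 2 * c

/-- JOB GL-CUT.
Proof.  The pairs counted on the left side give different pairs of the cut of `side V y x σ' τ'`, where
(if `0 < a y x`, so that `ns` and `0 < χ` are the same) `σ' = ¬ σ`, `τ' = ¬ τ`; if `a y x < 0` the two sides
of the line are exchanged: `σ' = σ`, `τ' = τ`.  The pairs: for `q ∈ N(y)`, `q ≠ x`, with `ns V y x q ↔ σ` the vertices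
`y` and `q` are on different sides, count `(y, q)` or `(q, y)`; the same for `q ∈ N(x)`, `q ≠ y`,
`ns V y x q ↔ τ`; and the pairs counted in `nea` and `far` (they avoid `y` and `x`). -/
def S_CUT : Prop := ∀ (ι : Type) [Fintype ι] (V : Views ι) (G : SimpleGraph ι) (c : ℕ), Bdd V G c →
  ∀ y x : ι, y ≠ x → ∀ σ τ : Prop,
    nearN V G y x σ + far V G y x + cnt (fun q : ι => G.Adj x q ∧ q ≠ y ∧ (ns V y x q ↔ τ)) ≤ c

/-- JOB GL-FAR.  Packing on a line, seen from `y`.
Proof.  Fix `y`.  For `p ≠ y` let `L(p) = {q ≠ y : χ(y,p,q) > 0}`; for different `p, q ≠ y` exactly one of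
`q ∈ L(p)`, `p ∈ L(q)` holds.  For `q ∈ L(p)` let `ρ(p,q)` be the number of the `x ∈ L(p)` with `χ(y,x,q) > 0`.
(i) For such an `x`: `χ(y,x,p) < 0 < χ(y,x,q)`, so `sepP V y x q p`.  (ii) The relation `χ(y,x,q) > 0` is transitive
on `L(p)`: with the vectors `v_x = (a y x, a y x * r y x)`, `χ(y,x,q) = det(v_x, v_q)`, and
`det(v_x,v_z) det(v_p,v_q) = det(v_p,v_x) det(v_q,v_z) + det(v_p,v_z) det(v_x,v_q)` (an identity, `ring`),
so if `det(v_p,v_x)`, `det(v_p,v_q)`, `det(v_p,v_z)`, `det(v_x,v_q)`, `det(v_q,v_z)` are positive so is `det(v_x,v_z)`.  So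
`q ↦ ρ(p,q)` is injective on `L(p)` (strictly monotone for the relation), and
`∑_{q ∈ L(p)} max (K - ρ(p,q), 0) ≤ K + (K-1) + ... + 1 = K(K+1)/2`.
(iii) Let `E'` be the set of the ordered pairs `(p,q)` counted on the left side; half of them (the same number)
has `q ∈ L(p)`.  `K #E'/2 ≤ ∑_{(p,q) ∈ E', q ∈ L(p)} (ρ(p,q) + max (K - ρ(p,q), 0)) ≤ ∑_{x ≠ y} far V G y x + (n-1) K (K+1)/2`
(first sum: the triple `(p,q,x)` with `x ∈ L(p)`, `χ(y,x,q) > 0` gives the pair `(q,p)` counted in `far V G y x`,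
injectively).  Multiply by `2`. -/
def S_FAR : Prop := ∀ (ι : Type) [Fintype ι] [DecidableEq ι] (V : Views ι) (G : SimpleGraph ι)
  (y : ι) (K : ℕ),
  K * cnt (fun q : ι × ι => G.Adj q.1 q.2 ∧ q.1 ≠ y ∧ q.2 ≠ y ∧ ¬ near G y q.1 q.2) ≤
    2 * ∑ x ∈ univ.erase y, far V G y x + (Fintype.card ι - 1) * ((K + 1) * K)

/-- JOB GL-NEAR.
Proof.  Fix `y`.  For `p ≠ y` let `A(p) = {q ∈ N(p) : q ≠ y, χ(y,p,q) > 0}`, `B(p)` the same with `< 0`; they are
disjoint and `A(p) ∪ B(p) = N(p) \ {y}`.  If `x, q` are different elements of `A(p)`, exactly one of `χ(y,x,q)`,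
`χ(y,q,x)` is positive (antisymmetry); if `χ(y,x,q) > 0` then (as `χ(y,x,p) < 0`) the line `y x` separates `p`
and `q`, and `x ∈ N(p)`.  The same in `B(p)`.  So the number `R(p)` of the pairs `(x, q)` of different elements
of `N(p) \ {y}` such that the line `y x` separates `p` and `q` is at least `C(#A,2) + C(#B,2) ≥
K #A - K(K+1)/2 + K #B - K(K+1)/2` (`C(t,2) ≥ K t - K(K+1)/2` for all integers `t`, as
`(t-K)(t-K-1) ≥ 0`).  The sum of `#A(p) + #B(p)` over the `p ≠ y` is the `cnt` on the left side.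
And `∑_p R(p) ≤ 2 ∑_{x ≠ y} nex V G y x`: `(p, x, q)` is a pair `{p,q}` of adjacent vertices separated by the line
`y x` with `x` adjacent to `p`, which is counted in `nex V G y x` as `(p,q)` or `(q,p)`; every such edge is
obtained at most twice (from `p` and from `q`). -/
def S_NEAR : Prop := ∀ (ι : Type) [Fintype ι] [DecidableEq ι] (V : Views ι) (G : SimpleGraph ι)
  (y : ι) (K : ℕ),
  K * cnt (fun q : ι × ι => G.Adj q.1 q.2 ∧ q.1 ≠ y ∧ q.2 ≠ y) ≤
    2 * ∑ x ∈ univ.erase y, nex V G y x + (Fintype.card ι - 1) * ((K + 1) * K)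

/-- JOB GL-BLOCK.
Proof.  Let `R = N(y) ∪ {z : some p ∈ N(y) is adjacent to z}`, `#R ≤ d + d² = M`.  For `x ≠ y`, `x ∉ R`, let
`u(x)` be the number of the `z ∈ R`, `z ≠ y`, with `r y z < r y x`; `0 ≤ u(x) ≤ M`.  If `u(x) = u(x')` then (`r y` is
injective on the points `≠ y`) the same elements `z` of `R` have `r y z < r y x` and `r y z < r y x'`: so
`ns V y x z ↔ ns V y x' z` for all `z ∈ R`, `z ≠ y`, and `nearN V G y x σ = nearN V G y x' σ`: in the first part `q ∈ N(y) ⊆ R`
(and `q ≠ x` is automatic as `x ∉ R`), and both ends of the edges counted in `nea V G y x` are in `R`;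
`nea V G y x` is the number of the pairs `(p,q)`, `p, q ∉ {x, y}` (`≠ x` is automatic), adjacent, near, with
`ns V y x p ∧ ¬ ns V y x q` (if `0 < a y x`; otherwise with `p` and `q` exchanged, the same number by symmetry).
The set `{x ≠ y : b ≤ nearN V G y x σ} \ R` has at least `(M + 1) m` elements, so one of the at most `M + 1`
classes `W_u = {x ≠ y, x ∉ R : u(x) = u}` contains at least `m` of them; then all `x ∈ W = W_u` have
`b ≤ nearN`.  Convexity: let `u, v ∈ W`, `z ≠ y`, `r y u < r y z < r y v`; `z ∉ R` since otherwise `u(v) > u(u)`;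
and `u(z)` lies between `u(u)` and `u(v)`, so it is equal to both, `z ∈ W`. -/
def S_BLOCK : Prop := ∀ (ι : Type) [Fintype ι] (V : Views ι) (G : SimpleGraph ι)
  (y : ι) (σ : Prop) (d b m : ℕ), (∀ z, deg G z ≤ d) →
  (d + d ^ 2 + 1) * m + (d + d ^ 2) ≤ cnt (fun x : ι => x ≠ y ∧ b ≤ nearN V G y x σ) →
  ∃ W : Finset ι, m ≤ W.card ∧ (∀ x ∈ W, x ≠ y ∧ b ≤ nearN V G y x σ) ∧
    ∀ u ∈ W, ∀ v ∈ W, ∀ z, z ≠ y → V.r y u < V.r y z → V.r y z < V.r y v → z ∈ W

/-- JOB GL-EDGE.
Proof.  `r y` is injective on the points `≠ y`.  Count ordered pairs `(p, q)` of adjacent vertices with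
`p ∈ W` or `q ∈ W`.  (0) Those with `p = y` or `q = y` or `near G y p q` are at most `2 dd G y`: one of
`y → p → q`, `y → q → p` is a walk of length two.
Now consider the other ones; by symmetry they are twice the unordered ones, `E'`.
(1) Let `w` be the element of `W` with the smallest `r y w`, `w'` the one with the largest.  Call `{p,q} ∈ E'`
of type A if `p, q ∈ W` and `a y p`, `a y q` have the same sign.  There are at most `2 h` edges of type B (not
A).  Let `ρ` be a number a little smaller than `r y w` (above all `r y z < r y w`) and `ρ'` a little larger than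
`r y w'`.  For a level `ρ` the side of `z` is the sign of `a y z (r y z - ρ)`.  Let `p ∈ W`.  Its side at
`ρ` is `sgn a y p`, at `ρ'` it is `- sgn a y p`.  If `q ∈ W` has the other sign, `p` and `q` are on different sides at
`ρ`.  If `q ∉ W` then `r y q < ρ` or `r y q > ρ'` (convexity), `q` has the same side at `ρ` and at `ρ'`, so `p` and
`q` are on different sides at one of the two levels.  The number of edges of `E'` on different sides at level
`ρ` is at most `h`: those not containing `w` are separated by the line `y w` and are counted in `far V G y w`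
(`ns V y w z ↔ 0 < a y z (r y z - r y w)`), and for those `{w, q}` the side of `w` at `ρ` is `sgn a y w`,
so they are counted in `cnt (fun q => G.Adj w q ∧ q ≠ y ∧ (ns V y w q ↔ τ))`, `τ = ¬ (0 < a y w)`.  The same at
`ρ'` with `w'` and `τ = (0 < a y w')`.
(2) Type A, `p` the end with the smaller `r`; `len (p,q) = #{x ∈ W : r y p ≤ r y x < r y q} ≥ 1`.  For
every `x ∈ W` at most `h` edges of type A satisfy `r y p ≤ r y x < r y q`: if `x ≠ p` it is separated by the
line `y x` (same sign), counted in `far V G y x`; if `x = p` then `ns V y x q ↔ 0 < a y x`, counted in the `cnt` with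
`τ = (0 < a y x)`.  So the sum of `len` over the edges of type A is at most `h #W`.  For fixed `p` the map
`q ↦ len (p,q) ≥ 1` is injective, so the sum over the edges of type A of `max (K + 1 - len, 0)` is at most
`#W (K + (K-1) + ... + 1) = #W K(K+1)/2`.  Hence `(K+1) #A ≤ h #W + #W K(K+1)/2`.
(3) Together: `(K+1) cnt ≤ (K+1) 2 dd + 2 (K+1) #A + 2 (K+1) #B ≤ 2(K+1) dd + #W (2h + K(K+1)) + 4h(K+1)`. -/
def S_EDGE : Prop := ∀ (ι : Type) [Fintype ι] (V : Views ι) (G : SimpleGraph ι)
  (y : ι) (W : Finset ι) (h K : ℕ), W.Nonempty → (∀ x ∈ W, x ≠ y) →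
  (∀ x ∈ W, ∀ τ : Prop,
    far V G y x + cnt (fun q : ι => G.Adj x q ∧ q ≠ y ∧ (ns V y x q ↔ τ)) ≤ h) →
  (∀ u ∈ W, ∀ v ∈ W, ∀ z, z ≠ y → V.r y u < V.r y z → V.r y z < V.r y v → z ∈ W) →
  (K + 1) * cnt (fun q : ι × ι => G.Adj q.1 q.2 ∧ (q.1 ∈ W ∨ q.2 ∈ W)) ≤
    W.card * (2 * h + K * (K + 1)) + (K + 1) * (4 * h + 2 * dd G y)

/-- JOB GL-LOW.  The lower bound.
Proof.  `P i = (i, i²)`; three points of a parabola are not collinear (Vandermonde determinant).  The edges
of `G`: the pairs `i < i'` with `i' - i ≤ j`, and those with `i' - i = j + 1` and `i mod (j+1) < t`.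
(1) For a real number `α` at most `h = j(j+1)/2 + t` edges satisfy `i ≤ α < i'`: for the length `l = i' - i ≤ j`
there are at most `l` integers `i` with `α - l < i ≤ α`, and for the length `j + 1` the `i` are among `j + 1`
consecutive integers, of which at most `t` have `i mod (j+1) < t`.
(2) Let `g(i) = a i + b i² - d`, `(a,b) ≠ 0`.  If the open segment `P i, P i'` meets the line then
`g(i) g(i') < 0` or `g(i) = g(i') = 0` (on the open segment the affine function takes the values between;
if both are `≥ 0` and one is `> 0` it is `> 0`).  If `b = 0`: `g` is strictly monotone with one real zero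
`α`, all edges met satisfy `i < α < i'`, so they are at most `h`.
If `b ≠ 0` we may assume `b > 0` (change the signs of `a, b, d`); if `g ≥ 0` on the reals there is no edge met
(a double zero is one point); otherwise `g = b (x - α)(x - β)`, `α < β`, and every edge met has exactly one
end in the real interval `(α, β]` (also the edge between two zeros `α`, `β`), so `i ≤ α < i'` or `i ≤ β < i'`.
So at most `2h` edges are met.
(3) Number of edges: for `n ≥ j + 1` it is at least `∑_{l=1}^j (n - l) + t ⌊(n - j - 1)/(j+1)⌋ ≥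
j n - j(j+1)/2 + t n/(j+1) - 2t`, and `h/(j+1) + j/2 = j + t/(j+1)`, `j(j+1)/2 + 2t ≤ 2h`.  For `n ≤ j` we have
`(j + t/(j+1)) n ≤ j² + t ≤ 2h`. -/
def S_LOW : Prop := ∀ (n j t : ℕ), t ≤ j + 1 → ∃ (P : Fin n → ℝ × ℝ) (G : SimpleGraph (Fin n)),
  GenPos P ∧ (∀ a b d : ℝ, (a ≠ 0 ∨ b ≠ 0) → met P G (lineOf a b d) ≤ j * (j + 1) + 2 * t) ∧
  ((j : ℝ) + t / (j + 1)) * n ≤ (G.edgeSet.ncard : ℝ) + (j * (j + 1) + 2 * t)

end Pool.Agent.Q165.GL
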