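import Pool.Agent.Q165.GL.Main

/-!
# Project GL: the second inequality and the pigeonhole principle
-/

set_option autoImplicit false

namespace Pool.Agent.Q165.GL

open Finset

section

variable {ι : Type} [Fintype ι] [DecidableEq ι]

theorem ind_sum (G : SimpleGraph ι) :
    dsum (fun y x => cnt (fun q : ι => G.Adj y q ∧ q ≠ x)) + adj2 G =
      (Fintype.card ι - 1) * adj2 G := by
  classical
  have h1 : adj2 G = dsum (fun y x : ι => if G.Adj y x then 1 else 0) := by
    rw [← sum_deg]
    unfold dsum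
    apply sum_congr rfl
    intro y _
    unfold deg
    rw [cnt_eq_sum, sum_erase]
    simp
  have h2 : ∀ y x : ι, cnt (fun q : ι => G.Adj y q ∧ q ≠ x) + (if G.Adj y x then 1 else 0) =
      deg G y := by
    intro y x
    unfold deg
    rw [cnt_split (fun q : ι => G.Adj y q) (fun q => q ≠ x)]
    congr 1
    split_ifs with h
    · unfold cnt
      symm
      rw [card_eq_one]
      refine ⟨x, ?_⟩
      ext q
      simp only [mem_filter, mem_univ, true_and, not_not, mem_singleton, ne_eq]
      constructor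
      · exact fun h => h.2
      · rintro rfl
        exact ⟨h, rfl⟩
    · symm
      apply cnt_eq_zero
      intro q hq
      have h3 : q = x := not_not.1 hq.2
      exact h (h3 ▸ hq.1)
  have h3 : dsum (fun y x => cnt (fun q : ι => G.Adj y q ∧ q ≠ x) +
      (if G.Adj y x then 1 else 0)) = dsum (fun y _ => deg G y) :=
    dsum_congr fun y x _ => h2 y x
  rw [dsum_add, ← h1, dsum_left, sum_deg] at h3
  exact h3

omit [DecidableEq ι] in
theorem nearN_add (V : Views ι) (G : SimpleGraph ι) (y x : ι) :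
    nearN V G y x True + nearN V G y x False =
      cnt (fun q : ι => G.Adj y q ∧ q ≠ x) + 2 * nea V G y x := by
  unfold nearN
  rw [cnt_split (fun q : ι => G.Adj y q ∧ q ≠ x) (fun q => ns V y x q)]
  have h1 : cnt (fun q : ι => G.Adj y q ∧ q ≠ x ∧ (ns V y x q ↔ True)) =
      cnt (fun q : ι => (G.Adj y q ∧ q ≠ x) ∧ ns V y x q) := cnt_congr fun q => by tauto
  have h2 : cnt (fun q : ι => G.Adj y q ∧ q ≠ x ∧ (ns V y x q ↔ False)) =
      cnt (fun q : ι => (G.Adj y q ∧ q ≠ x) ∧ ¬ ns V y x q) := cnt_congr fun q => by tauto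
  rw [h1, h2]
  ring

theorem near_main (hNEAR : S_NEAR) (V : Views ι) (G : SimpleGraph ι) (K : ℕ) :
    (K + 1) * (Fintype.card ι * adj2 G) ≤
      dsum (fun y x => nearN V G y x True + nearN V G y x False) +
        Fintype.card ι * ((Fintype.card ι - 1) * ((K + 1) * K)) + (K + 1) * (2 * adj2 G) := by
  have h1 := near_sum hNEAR V G K
  have h2 : dsum (fun y x => nearN V G y x True + nearN V G y x False) =
      dsum (fun y x => cnt (fun q : ι => G.Adj y q ∧ q ≠ x)) + 2 * dsum (nex V G) := by
    rw [nex_sum, ← dsum_mul, ← dsum_add]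
    exact dsum_congr fun y x _ => nearN_add V G y x
  have h3 := ind_sum G
  rcases Nat.eq_zero_or_pos (Fintype.card ι) with h0 | h0
  · rw [h0]
    simp
  obtain ⟨m, hm⟩ : ∃ m, Fintype.card ι = m + 1 := ⟨Fintype.card ι - 1, by omega⟩
  rw [hm] at h1 h3 ⊢
  simp only [Nat.add_sub_cancel] at h1 h3 ⊢
  rw [h2]
  nlinarith

theorem pigeon (hNEAR : S_NEAR) (V : Views ι) (G : SimpleGraph ι) (K h T : ℕ)
    (hc : ∀ y x, y ≠ x → ∀ σ, nearN V G y x σ ≤ 2 * h + 1)
    (hT : ∀ y σ, cnt (fun x : ι => x ≠ y ∧ h + 1 ≤ nearN V G y x σ) ≤ T) :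
    (K + 1) * (Fintype.card ι * adj2 G) ≤
      Fintype.card ι * ((Fintype.card ι - 1) * (2 * h + (K + 1) * K)) +
        2 * (Fintype.card ι * ((h + 1) * T)) + (K + 1) * (2 * adj2 G) := by
  classical
  have h1 := near_main hNEAR V G K
  have h2 : ∀ σ : Prop, dsum (fun y x => nearN V G y x σ) ≤
      Fintype.card ι * (Fintype.card ι - 1) * h + Fintype.card ι * ((h + 1) * T) := by
    intro σ
    calc dsum (fun y x => nearN V G y x σ)
        ≤ dsum (fun y x => h + (h + 1) * (if h + 1 ≤ nearN V G y x σ then 1 else 0)) := by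
          apply dsum_mono
          intro y x hyx
          have := hc y x hyx σ
          split_ifs with h3
          · omega
          · omega
      _ = Fintype.card ι * (Fintype.card ι - 1) * h +
          (h + 1) * dsum (fun y x => if h + 1 ≤ nearN V G y x σ then 1 else 0) := by
          rw [dsum_add, dsum_const, dsum_mul]
      _ ≤ Fintype.card ι * (Fintype.card ι - 1) * h + (h + 1) * (Fintype.card ι * T) := by
          apply Nat.add_le_add_left
          apply Nat.mul_le_mul_left
          rw [dsum_eq_ite]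
          calc _ = ∑ y : ι, cnt (fun x : ι => x ≠ y ∧ h + 1 ≤ nearN V G y x σ) := by
                apply sum_congr rfl
                intro y _
                rw [cnt_eq_sum]
                apply sum_congr rfl
                intro x _
                by_cases h3 : x = y
                · simp [h3]
                · simp [h3, Ne.symm h3]
            _ ≤ ∑ _y : ι, T := sum_le_sum fun y _ => hT y σ
            _ = Fintype.card ι * T := by rw [sum_const, card_univ, smul_eq_mul]
      _ = _ := by ring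
  have h3 := h2 True
  have h4 := h2 False
  rw [dsum_add] at h1
  have h5 : Fintype.card ι * ((Fintype.card ι - 1) * (2 * h + (K + 1) * K)) =
      2 * (Fintype.card ι * (Fintype.card ι - 1) * h) +
        Fintype.card ι * ((Fintype.card ι - 1) * ((K + 1) * K)) := by ring
  omega

end

/-! ## Subgraphs -/

section

variable {α β : Type} [Fintype α] [Fintype β]

theorem cnt_le_inj (e : α → β) (he : Function.Injective e) {p : α → Prop} {q : β → Prop}
    (h : ∀ x, p x → q (e x)) : cnt p ≤ cnt q := by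
  classical
  unfold cnt
  apply card_le_card_of_injOn e
  · intro x hx
    simp only [coe_filter, mem_univ, true_and, Set.mem_ofPred_eq] at hx ⊢
    exact h x hx
  · intro x _ y _ hxy
    exact he hxy

theorem cnt_le_surj (e : α → β) {p : α → Prop} {q : β → Prop}
    (h : ∀ y, q y → ∃ x, p x ∧ e x = y) : cnt q ≤ cnt p := by
  classical
  unfold cnt
  apply card_le_card_of_surjOn e
  intro y hy
  simp only [coe_filter, mem_univ, true_and, Set.mem_ofPred_eq] at hy
  obtain ⟨x, hx, hxy⟩ := h y hy
  exact ⟨x, by simpa using hx, hxy⟩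

end

section

variable {ι κ : Type} [Fintype ι] [Fintype κ]

/-- the views of a subset of the points -/
def subV (V : Views ι) (e : κ → ι) (he : Function.Injective e) : Views κ where
  a y x := V.a (e y) (e x)
  r y x := V.r (e y) (e x)
  ha _ _ h := V.ha _ _ (he.ne h)
  hr _ _ _ h1 h2 h3 := V.hr _ _ _ (he.ne h1) (he.ne h2) (he.ne h3)
  swap _ _ _ h1 h2 h3 := V.swap _ _ _ (he.ne h1) (he.ne h2) (he.ne h3)

theorem sub_bdd (V : Views ι) (G : SimpleGraph ι) (c : ℕ) (hB : Bdd V G c) (e : κ → ι)
    (he : Function.Injective e) : Bdd (subV V e he) (G.comap e) c := by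
  intro y x hyx σ τ
  refine le_trans ?_ (hB (e y) (e x) (he.ne hyx) σ τ)
  have hs : ∀ z, side (subV V e he) y x σ τ z ↔ side V (e y) (e x) σ τ (e z) := by
    intro z
    unfold side
    rw [he.eq_iff, he.eq_iff, he.ne_iff, he.ne_iff]
    rfl
  unfold cut
  apply cnt_le_inj (fun q : κ × κ => (e q.1, e q.2))
  · rintro ⟨a, b⟩ ⟨c, d⟩ h
    simp only [Prod.mk.injEq] at h
    rw [he h.1, he h.2]
  · rintro ⟨a, b⟩ ⟨h1, h2, h3⟩
    exact ⟨h1, (hs a).1 h2, fun h4 => h3 ((hs b).2 h4)⟩

theorem sub_adj2 (G : SimpleGraph ι) (W : Finset ι) (e : κ → ι) (he : ∀ x, x ∉ W → ∃ y, e y = x) :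
    adj2 G ≤ adj2 (G.comap e) + cnt (fun q : ι × ι => G.Adj q.1 q.2 ∧ (q.1 ∈ W ∨ q.2 ∈ W)) := by
  unfold adj2
  rw [cnt_split (fun q : ι × ι => G.Adj q.1 q.2) (fun q => q.1 ∈ W ∨ q.2 ∈ W), add_comm]
  apply Nat.add_le_add_right
  apply cnt_le_surj (fun q : κ × κ => (e q.1, e q.2))
  rintro ⟨a, b⟩ ⟨h1, h2⟩
  simp only [not_or] at h2
  obtain ⟨a', ha'⟩ := he a h2.1
  obtain ⟨b', hb'⟩ := he b h2.2
  refine ⟨(a', b'), ?_, by simp [ha', hb']⟩
  simp only [SimpleGraph.comap_adj, ha', hb']
  exact h1

end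

end Pool.Agent.Q165.GL
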